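import Pool.Agent.TH597.HX.Fin

/-!
# KLS for hierarchically exchangeable log-concave measures (rooted trees of any depth)

The Kannan-Lovasz-Simonovits inequality, in the equivalent (E. Milman) form of a variance bound for
Lipschitz functions, for all log-concave probability measures on `ℝ^L`, `L` the set of the leaves of a
rooted tree of depth `k` in which every node of level `j` has `m_j` children, which are invariant
under the automorphisms of the tree. The constant is `C^(k²) ∏_j (1 + log N_j / m_j)²`,
`N_j = m_0 ⋯ m_{j-1}` the number of the nodes of level `j`: it depends only on the depth when every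
node of level `j` has at least `log N_j` children, in particular it does not depend on the dimension.

For `k = 1` this is `Pool.Agent.Results.MP_6d896a_gt.Exchangeable` (starting files). For `k = 2` these
are the arrays of `n` blocks of `m` coordinates, invariant under permutations of the coordinates
inside each block and permutations of the blocks (the wreath product of the symmetric groups), with
the constant `C (1 + log n / m)²`.

Method. A local Poincare property of a group of permutations (Poincare inequality for invariant
log-concave densities supported in a sublevel set of an invariant norm, which has exponential tails)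
is shown to be stable under wreath products with symmetric groups. A density invariant under the
exchanges inside the blocks is tilted by a Gaussian in the directions of the block sums. The tilted
densities satisfy a Poincare inequality by the method of the starting files for exchangeable measures
(discrete Bochner inequality through the Gaussian channel, Hardy inequality for functions odd under an
exchange), where only the distances `∑ |x_i - x_j|` inside the blocks have to be bounded; for these
the tail `exp (-m l)` with a rate proportional to the size `m` of the block is proved. The tilt is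
removed with the Poincare inequality for the law of its centre, which is again log-concave and
inherits the symmetries of the tree without its last level.
-/

set_option autoImplicit false

namespace Pool.Agent.Results.MP_6d896a_gt.HierarchicallyExchangeable

open MeasureTheory Set
open scoped ENNReal InnerProductSpace

/-- The leaves of the rooted tree of depth `k` in which every node of level `j` has `m j` children:
a leaf is the sequence of the choices of a child at the levels `0, …, k - 1`. -/
abbrev Leaf {k : ℕ} (m : Fin k → ℕ) : Type := (j : Fin k) → Fin (m j)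

/-- Automorphisms of the tree, as permutations of the leaves: for every level `l`, two leaves have the
same ancestor of level `l` if and only if their images do. -/
def IsAut {k : ℕ} (m : Fin k → ℕ) (ψ : Equiv.Perm (Leaf m)) : Prop :=
  ∀ (l : ℕ) (x y : Leaf m), (∀ j : Fin k, j.val < l → x j = y j) ↔
    (∀ j : Fin k, j.val < l → ψ x j = ψ y j)

/-- functions on the leaves -/
abbrev Arr {k : ℕ} (m : Fin k → ℕ) : Type := EuclideanSpace ℝ (Leaf m)

/-- `ρ` is a log-concave density on `ℝ^(leaves)` invariant under the automorphisms of the tree. -/
structure TreeDensity {k : ℕ} (m : Fin k → ℕ) (ρ : Arr m → ℝ) : Prop where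
  nonneg : ∀ x, 0 ≤ ρ x
  meas : Measurable ρ
  logc : ∀ x y, ∀ t : ℝ, 0 < t → t < 1 → ρ x ^ (1 - t) * ρ y ^ t ≤ ρ ((1 - t) • x + t • y)
  inv : ∀ ψ : Equiv.Perm (Leaf m), IsAut m ψ → ∀ x y : Arr m, (∀ p, y p = x (ψ p)) → ρ y = ρ x

/-- `Var ⟪θ, X⟫ ≤ s ‖θ‖²` for all `θ`: the covariance matrix of `μ` has norm at most `s`. -/
def CovLe {k : ℕ} {m : Fin k → ℕ} (μ : Measure (Arr m)) (s : ℝ) : Prop :=
  ∀ θ : Arr m, ProbabilityTheory.evariance (fun x => ⟪θ, x⟫_ℝ) μ ≤ ENNReal.ofReal (s * ‖θ‖ ^ 2)

/-- the number `m_0 ⋯ m_{j-1}` of the nodes of level `j` -/
noncomputable def nodes {k : ℕ} (m : Fin k → ℕ) (j : Fin k) : ℝ :=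
  ∏ i ∈ Finset.univ.filter (fun i => i < j), (m i : ℝ)

/-- the factor `∏_j (1 + log N_j / m_j)²` -/
noncomputable def factor {k : ℕ} (m : Fin k → ℕ) : ℝ :=
  ∏ j, (1 + Real.log (nodes m j) / m j) ^ 2

/-- **KLS for hierarchically exchangeable log-concave measures.** There is an absolute constant `C`
such that for every `k ≥ 1` and all `m_0, …, m_{k-1} ≥ 1`, every log-concave probability density `ρ` on
`ℝ^L`, `L` the leaves of the rooted tree of depth `k` in which every node of level `j` has `m_j`
children, invariant under the automorphisms of the tree, and every `s > 0` such that the covariance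
matrix has norm at most `s`: every `C¹` function with `‖∇ f‖ ≤ 1` has variance at most
`C^(k²) ∏_j (1 + log N_j / m_j)² s`, and every `C¹` function with `|f| ≤ 1` satisfies
`(Var f)² ≤ C^(k²) ∏_j (1 + log N_j / m_j)² s E ‖∇ f‖²`, where `N_j = m_0 ⋯ m_{j-1}`. -/
theorem result : ∃ C : ℝ, 0 < C ∧ ∀ (k : ℕ) (m : Fin k → ℕ), 1 ≤ k → (∀ j, 1 ≤ m j) →
    ∀ ρ : Arr m → ℝ, TreeDensity m ρ →
    ∀ μ : Measure (Arr m),
    μ = volume.withDensity (fun x => ENNReal.ofReal (ρ x)) → IsProbabilityMeasure μ →
    ∀ s : ℝ, 0 < s → CovLe μ s → ∀ f : Arr m → ℝ, ContDiff ℝ 1 f →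
    ((∀ x, ‖fderiv ℝ f x‖ ≤ 1) → MemLp f 2 μ ∧
      ProbabilityTheory.variance f μ ≤ C ^ (k ^ 2) * factor m * s) ∧
    ((∀ x, |f x| ≤ 1) → ENNReal.ofReal (ProbabilityTheory.variance f μ ^ 2) ≤
      ENNReal.ofReal (C ^ (k ^ 2) * factor m * s) *
        ∫⁻ x, ENNReal.ofReal (‖fderiv ℝ f x‖ ^ 2) ∂μ) := by
  obtain ⟨C, hC, H⟩ := Pool.Agent.TH597.HX.Fin'.fullA
  refine ⟨C, hC, ?_⟩
  intro k m hk hm ρ hρ μ hμ hprob s hs hcov f hf
  subst hμ
  exact H k m hk hm ρ (Pool.Agent.TH597.HX.Fin'.gd_of hρ.nonneg hρ.meas hρ.logc hρ.inv)
    hprob.measure_univ s hs hcov f hf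

end Pool.Agent.Results.MP_6d896a_gt.HierarchicallyExchangeable
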