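import Pool.Agent.TH610.RB.Spec

/-!
# KLS for log-concave measures on tuples of vectors, rotation invariant in each vector and symmetric
inside blocks

The Kannan-Lovasz-Simonovits inequality, in the equivalent (E. Milman) form of a variance bound for
Lipschitz functions, for all log-concave probability measures on
`(ℝ^{m_1})^{k_1} × ⋯ × (ℝ^{m_b})^{k_b}` whose density depends only on the norms of the vectors and
does not change when the vectors of the same block are permuted (invariance under the product of the
wreath products `O(m_β) ≀ S_{k_β}`). The constant is `C (1 + T)²` whenever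
`∑_β exp (- T k_β m_β) ≤ 1`, for example `T = (log b) / min_β (k_β m_β)`: an absolute constant for
one block and, more generally, whenever every block has at least `log b` coordinates.

`b = 1`, `m = 1` is `Pool.Agent.Results.MP_6d896a_gt.OneSymmetric`; `k = m = 1` are the
unconditional measures, with the factor `(1 + log n)²` of Klartag.

Method (after `OneSymmetric` and `Particles`). Discrete Bochner inequality through the Gaussian
channel (`H888R2.KT.key`): it is enough to consider functions which are odd in one coordinate. For
these a Hardy type inequality holds, with two bounded vector fields along which no density of the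
class increases. If the vector `x_a` containing the coordinate is long, it is moved outwards and the
many short vectors of the same block are moved inwards; the divergence is at most `-c √m`. If it is
not long, a field inside `ℝ^m`, the combination of a translation in the direction of the coordinate
and of a contraction, has negative divergence and nonnegative radial part. The sum of the norms
of a block has an exponential tail by comparison of the density at `0` with the volume of a box. A
union bound over the blocks gives the set of large measure on which all the inequalities hold.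
-/

set_option autoImplicit false

namespace Pool.Agent.Results.MP_6d896a_gt.RadialBlocks

open MeasureTheory Set
open scoped ENNReal InnerProductSpace

/-- `b` blocks, the block `β` consists of `k β` vectors of `ℝ^{m β}`: `x ⟨β, j, i⟩` is the coordinate
`i` of the vector `j` of the block `β` -/
abbrev Space (b : ℕ) (k m : Fin b → ℕ) : Type :=
  EuclideanSpace ℝ (Σ β : Fin b, Fin (k β) × Fin (m β))

/-- the Euclidean norm of the vector `j` of the block `β` -/
noncomputable def vecNorm {b : ℕ} {k m : Fin b → ℕ} (x : Space b k m) (β : Fin b)
    (j : Fin (k β)) : ℝ := Real.sqrt (∑ i, x ⟨β, j, i⟩ ^ 2)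

/-- `ρ` is a log-concave density which depends only on the norms of the vectors and does not change
when the vectors inside the blocks are permuted. -/
structure RadialDensity {b : ℕ} {k m : Fin b → ℕ} (ρ : Space b k m → ℝ) : Prop where
  nonneg : ∀ x, 0 ≤ ρ x
  meas : Measurable ρ
  logc : ∀ x y, ∀ t : ℝ, 0 < t → t < 1 → ρ x ^ (1 - t) * ρ y ^ t ≤ ρ ((1 - t) • x + t • y)
  inv : ∀ σ : ∀ β, Equiv.Perm (Fin (k β)), ∀ x y : Space b k m,
    (∀ β j, vecNorm y β j = vecNorm x β (σ β j)) → ρ y = ρ x

/-- `Var ⟪θ, X⟫ ≤ s ‖θ‖²` for all `θ`: the covariance matrix of `μ` has norm at most `s`. -/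
def CovLe {b : ℕ} {k m : Fin b → ℕ} (μ : Measure (Space b k m)) (s : ℝ) : Prop :=
  ∀ θ : Space b k m, ProbabilityTheory.evariance (fun x => ⟪θ, x⟫_ℝ) μ ≤
    ENNReal.ofReal (s * ‖θ‖ ^ 2)

/-- **KLS for log-concave measures which are radial in each vector and symmetric in blocks.** There
is an absolute constant `C` such that for all `b`, all `k β, m β ≥ 1` (`β < b`), all `T ≥ 0` with
`∑_β exp (- T k_β m_β) ≤ 1`, every log-concave probability density `ρ` on
`∏_β (ℝ^{m β})^{k β}` which depends only on the norms of the vectors and is symmetric inside the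
blocks, and every `s > 0` bounding the norm of the covariance matrix: every `C¹` function with
`‖∇ f‖ ≤ 1` is in `L²` and has variance at most `C (1 + T)² s`. -/
theorem result : ∃ C : ℝ, 0 < C ∧ ∀ (b : ℕ) (k m : Fin b → ℕ), (∀ β, 1 ≤ k β) → (∀ β, 1 ≤ m β) →
    ∀ T : ℝ, 0 ≤ T → ∑ β, Real.exp (-(T * (k β * m β))) ≤ 1 →
    ∀ ρ : Space b k m → ℝ, RadialDensity ρ →
    ∀ μ : Measure (Space b k m),
    μ = volume.withDensity (fun x => ENNReal.ofReal (ρ x)) → IsProbabilityMeasure μ →
    ∀ s : ℝ, 0 < s → CovLe μ s → ∀ f : Space b k m → ℝ, ContDiff ℝ 1 f →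
    (∀ x, ‖fderiv ℝ f x‖ ≤ 1) →
    MemLp f 2 μ ∧ ProbabilityTheory.variance f μ ≤ C * (1 + T) ^ 2 * s := by
  have hCC := Pool.Agent.TH610.RB.CC_pos
  refine ⟨8 * Pool.Agent.TH610.RB.CC, by positivity, ?_⟩
  intro b k m hk hm T hT0 hT ρ hρ μ hμ hprob s hs hcov f hf hf1
  subst hμ
  have hRD := Pool.Agent.TH610.RB.rd_of hρ.nonneg hρ.meas hρ.logc hρ.inv
  have key := (Pool.Agent.TH610.RB.full (by positivity)
    (Pool.Agent.TH610.RB.sc hk hm T hT0 hT) ρ hRD.gd hprob.measure_univ s hs hcov f hf).1 hf1
  refine ⟨key.1, key.2.trans (le_of_eq ?_)⟩
  ring

end Pool.Agent.Results.MP_6d896a_gt.RadialBlocks
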