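import Pool.Agent.TH591.TT.FinS

/-!
# The KLS inequality for tuples of matrices and vectors invariant under rotations

The Kannan-Lovasz-Simonovits conjecture, in the form of a Poincare inequality, for all log-concave
probability measures on tuples `(X_1, …, X_q, v_1, …, v_m)` of `q` real `N × N` matrices and `m`
vectors of `ℝ^N`, and on all rotation invariant linear subspaces of the space of these tuples,
whose density is invariant under the simultaneous rotations `X_j ↦ g X_j gᵀ`, `v_i ↦ g v_i`,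
`g ∈ SO(N)`, `3 ≤ N`. The constant is `C (q + 1)² (1 + (q + m) / N)²` with an absolute constant `C`.

Method: local Poincare inequality on the convex set where all operator norms are at most
`C √(N s)`, by a discrete Bochner inequality through the Gaussian channel (starting module
`H888R2.KT.N8`) and the Casimir operators of the adjoint representation and of the space itself;
tails of the operator norms from transitivity of subgroups and nets; gluing (starting modules
`H888R2.KC`). Files of this proof: `Pool/Agent/TH591/TT/`.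
-/

set_option autoImplicit false

namespace Pool.Agent.Results.MP_6d896a_gt.TensorTuples

open MeasureTheory Set
open scoped ENNReal InnerProductSpace Matrix

/-- tuples of `q` real `N × N` matrices and `m` vectors of `ℝ^N`, with the Euclidean
(Hilbert-Schmidt) structure -/
abbrev Tup (q m N : ℕ) : Type := EuclideanSpace ℝ ((Fin q × (Fin N × Fin N)) ⊕ (Fin m × Fin N))

/-- the matrix `X_j` of the tuple `x` -/
def mat {q m N : ℕ} (j : Fin q) (x : Tup q m N) : Matrix (Fin N) (Fin N) ℝ :=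
  Matrix.of fun a b => x (Sum.inl (j, (a, b)))

/-- the vector `v_i` of the tuple `x` -/
def vec {q m N : ℕ} (i : Fin m) (x : Tup q m N) : Fin N → ℝ := fun a => x (Sum.inr (i, a))

/-- `g` is a rotation: `g ∈ SO(N)` -/
def Rotation {N : ℕ} (g : Matrix (Fin N) (Fin N) ℝ) : Prop := g * gᵀ = 1 ∧ g.det = 1

/-- `y` is the tuple `x` rotated by `g`: `X_j ↦ g X_j gᵀ`, `v_i ↦ g v_i` -/
def Rotated {q m N : ℕ} (g : Matrix (Fin N) (Fin N) ℝ) (x y : Tup q m N) : Prop :=
  (∀ j, mat j y = g * mat j x * gᵀ) ∧ ∀ i, vec i y = g *ᵥ vec i x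

/-- `ι` is a linear isometry of the Euclidean space `ℝ^κ` onto a linear subspace of the space of
tuples which is invariant under the rotations. -/
def InvSubspace {κ : Type} [Fintype κ] {q m N : ℕ} (ι : EuclideanSpace ℝ κ →ₗᵢ[ℝ] Tup q m N) :
    Prop :=
  ∀ g : Matrix (Fin N) (Fin N) ℝ, Rotation g → ∀ x, ∃ y, Rotated g (ι x) (ι y)

/-- `ρ` is a log-concave density on the subspace `ι(ℝ^κ)`, invariant under the rotations. -/
structure InvDensity {κ : Type} [Fintype κ] {q m N : ℕ} (ι : EuclideanSpace ℝ κ →ₗᵢ[ℝ] Tup q m N)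
    (ρ : EuclideanSpace ℝ κ → ℝ) : Prop where
  meas : Measurable ρ
  nonneg : ∀ x, 0 ≤ ρ x
  logc : ∀ x y, ∀ t : ℝ, 0 < t → t < 1 → ρ x ^ (1 - t) * ρ y ^ t ≤ ρ ((1 - t) • x + t • y)
  inv : ∀ g : Matrix (Fin N) (Fin N) ℝ, Rotation g → ∀ x y, Rotated g (ι x) (ι y) → ρ y = ρ x

/-- `Var ⟪θ, X⟫ ≤ s ‖θ‖²` for all `θ`: the covariance matrix of `μ` has norm at most `s`. -/
def CovLe {κ : Type} [Fintype κ] (μ : Measure (EuclideanSpace ℝ κ)) (s : ℝ) : Prop :=
  ∀ θ : EuclideanSpace ℝ κ, ProbabilityTheory.evariance (fun x => ⟪θ, x⟫_ℝ) μ ≤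
    ENNReal.ofReal (s * ‖θ‖ ^ 2)

/-- Poincare inequality: `Var f ≤ K E ‖∇ f‖²` for all `C¹` functions `f ∈ L²(μ)`. -/
def PoincareLe {κ : Type} [Fintype κ] (μ : Measure (EuclideanSpace ℝ κ)) (K : ℝ) : Prop :=
  ∀ f : EuclideanSpace ℝ κ → ℝ, ContDiff ℝ 1 f → MemLp f 2 μ →
    ENNReal.ofReal (ProbabilityTheory.variance f μ) ≤
      ENNReal.ofReal K * ∫⁻ x, ENNReal.ofReal (‖fderiv ℝ f x‖ ^ 2) ∂μ

/-- **KLS for log-concave measures on tuples of matrices and vectors invariant under rotations.**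
There is an absolute constant `C` such that for all `N ≥ 3` and all `q, m`, every isometrically
parametrised rotation invariant linear subspace `ι(ℝ^κ)` of the space of tuples of `q` real `N × N`
matrices and `m` vectors of `ℝ^N`, every log-concave probability density `ρ` on it invariant under
the rotations `X_j ↦ g X_j gᵀ`, `v_i ↦ g v_i`, `g ∈ SO(N)`, and all variances
`Var ⟪θ, X⟫ ≤ s ‖θ‖²`: the Poincare inequality holds with the constant
`C (q + 1)² (1 + (q + m) / N)² s`. -/
theorem result : ∃ C : ℝ, 0 < C ∧ ∀ q m N : ℕ, 3 ≤ N → ∀ (κ : Type) [Fintype κ]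
    (ι : EuclideanSpace ℝ κ →ₗᵢ[ℝ] Tup q m N), InvSubspace ι →
    ∀ ρ : EuclideanSpace ℝ κ → ℝ, InvDensity ι ρ →
    ∀ μ : Measure (EuclideanSpace ℝ κ), μ = volume.withDensity (fun x => ENNReal.ofReal (ρ x)) →
    IsProbabilityMeasure μ → ∀ s : ℝ, 0 < s → CovLe μ s →
    PoincareLe μ (C * ((q + 1) ^ 2 * (1 + (q + m) / N) ^ 2) * s) := by
  obtain ⟨C, hC, h⟩ := TH591.TT.spS
  refine ⟨C, hC, ?_⟩
  intro q m N hN κ _ ι hι ρ hρ' μ hμ hprob s hs hcov f hf hfL
  subst hμ
  have hrot : ∀ g : Matrix (Fin N) (Fin N) ℝ, Rotation g ↔ TH591.TT.IsSO g := by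
    intro g
    constructor
    · rintro ⟨h1, h2⟩
      exact ⟨(Matrix.mem_orthogonalGroup_iff (Fin N) ℝ).2 h1, h2⟩
    · rintro ⟨h1, h2⟩
      exact ⟨TH591.TT.orth1 h1, h2⟩
  have hact : ∀ (g : Matrix (Fin N) (Fin N) ℝ) (x y : Tup q m N),
      Rotated g x y ↔ y = TH591.TT.RR g x := by
    intro g x y
    constructor
    · rintro ⟨h1, h2⟩
      refine TH591.TT.ext_mv h1 ?_
      ext a i
      exact congrFun (h2 i) a
    · intro h1
      subst h1
      exact ⟨fun j => rfl, fun i => rfl⟩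
  have hι' : TH591.TT.InvR ι := by
    intro g hg x
    obtain ⟨y, hy⟩ := hι g ((hrot g).2 hg) x
    exact ⟨y, (hact g _ _).1 hy⟩
  have hρ : TH591.TT.GD (TH591.TT.GS ι) ρ := by
    refine ⟨hρ'.nonneg, hρ'.meas, hρ'.logc, ?_⟩
    rintro e ⟨g, hg, he⟩ x
    exact hρ'.inv g ((hrot g).2 hg) x _ ((hact g _ _).2 (he x))
  have h4 := TH591.TT.centG (mul_pos hC (TH591.TT.fac_pos q m N)) (h hN ι hι') ρ hρ
    hprob.measure_univ s hs hcov f hf hfL
  rw [ProbabilityTheory.variance_eq_integral hfL.aestronglyMeasurable.aemeasurable]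
  exact h4

end Pool.Agent.Results.MP_6d896a_gt.TensorTuples
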